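import Pool.Agent.CSym.Example

/-!
# The rectilinear crossing number of centrally symmetric point sets

For a centrally symmetric set `P` of `2 m` points of the plane, no three on a line, the complete
rectilinear drawing has at least `8 C(m,4) + 6 C(m,3) + C(m,2) = (C(2m,4) + C(m,2)) / 2` crossings,
this is attained for every `m`, and the minimisers are exactly the sets in which every triple of
pairs of opposite points is nested.
-/

set_option autoImplicit false

open Pool.Agent.CSym

theorem Pool.Agent.Results.MP_4ed420_co.CentrallySymmetric.result (m : ℕ) :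
    IsLeast {c : ℕ | ∃ P : Finset (ℝ × ℝ), P.card = 2 * m ∧ Sym P ∧ GenPos P ∧ crossings P = c}
      (8 * m.choose 4 + 6 * m.choose 3 + m.choose 2) ∧
    2 * (8 * m.choose 4 + 6 * m.choose 3 + m.choose 2) = (2 * m).choose 4 + m.choose 2 ∧
    ∀ P : Finset (ℝ × ℝ), P.card = 2 * m → Sym P → GenPos P →
      crossings P = convexQuads P ∧
      (crossings P = 8 * m.choose 4 + 6 * m.choose 3 + m.choose 2 ↔ AllNested P) := by
  refine ⟨⟨⟨exP m, card_exP m, sym_exP m, (genPos_iff _).mpr (gpv_exP m), ?_⟩, ?_⟩,
    two_minVal m, ?_⟩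
  · rw [crossings_eq (gpv_exP m)]
    exact exP_min m
  · rintro c ⟨P, hP, hS, hG, rfl⟩
    rw [genPos_iff] at hG
    rw [crossings_eq hG]
    exact minVal_le hS hG hP
  · intro P hP hS hG
    rw [genPos_iff] at hG
    refine ⟨crossings_eq hG, ?_⟩
    rw [crossings_eq hG]
    exact eq_minVal_iff hS hG hP
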